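import Pool.Agent.Helper28.MT.Goals3

/-!
# Project MT3 (MP_bb782b_co), packet MT3-ABS (helper62)
-/

set_option autoImplicit false

namespace Pool.Agent.Helper62.MT3

open Finset Pool.Agent.Helper28.MT3

theorem num (E : ℕ) (g : ℝ) (hg : 0 ≤ g) (h : (2 : ℝ) ^ E ≤ 2 * (g + 2)) :
    (2 : ℝ) ^ 43 * E * 2 ^ ((E + 3) / 4) ≤ g / 2 + 2 ^ 71 := by
  by_cases h1 : E ≤ 72
  · have e1 : (E : ℝ) ≤ 72 := by exact_mod_cast h1
    have e2 : (2 : ℝ) ^ ((E + 3) / 4) ≤ 2 ^ 18 :=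
      pow_le_pow_right₀ (by norm_num) (by omega)
    have e3 : (2 : ℝ) ^ 43 * E * 2 ^ ((E + 3) / 4) ≤ 2 ^ 43 * 72 * 2 ^ 18 := by
      gcongr
    have e4 : (2 : ℝ) ^ 43 * 72 * 2 ^ 18 ≤ 2 ^ 71 := by norm_num
    linarith
  · obtain ⟨t, rfl⟩ : ∃ t, E = 73 + t := ⟨E - 73, by omega⟩
    have e1 : t / 2 < 2 ^ (t / 2) := Nat.lt_two_pow_self
    have e2 : 73 + t ≤ 2 ^ (9 + t / 2) := by
      rw [pow_add]
      omega
    have e3 : 2 ^ 43 * (73 + t) * 2 ^ ((73 + t + 3) / 4) ≤ 2 ^ (71 + t) := by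
      calc 2 ^ 43 * (73 + t) * 2 ^ ((73 + t + 3) / 4)
          ≤ 2 ^ 43 * 2 ^ (9 + t / 2) * 2 ^ ((73 + t + 3) / 4) := by gcongr
        _ = 2 ^ (43 + (9 + t / 2) + (73 + t + 3) / 4) := by rw [← pow_add, ← pow_add]
        _ ≤ 2 ^ (71 + t) := Nat.pow_le_pow_right (by norm_num) (by omega)
    have e4 : (2 : ℝ) ^ 43 * ((73 + t : ℕ) : ℝ) * 2 ^ ((73 + t + 3) / 4) ≤ 2 ^ (71 + t) := by
      exact_mod_cast e3
    have e5 : (2 : ℝ) ^ (73 + t) = 4 * 2 ^ (71 + t) := by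
      rw [show 73 + t = 2 + (71 + t) by ring, pow_add]
      norm_num
    rw [e5] at h
    have e6 : (1 : ℝ) ≤ 2 ^ 71 := by norm_num
    linarith

theorem geo (s m : ℕ) :
    ∑ l ∈ Ico 1 s, (if s - l < m then (2 : ℝ) ^ (s - l) else 0) ≤ 2 ^ m - 1 := by
  have h1 := Finset.sum_Ico_reflect (fun i => if i < m then (2 : ℝ) ^ i else 0) 1
    (Nat.le_succ s)
  rw [h1]
  have h2 : (2 : ℝ) ^ m - 1 = ∑ i ∈ range m, (2 : ℝ) ^ i := by
    have := geom_sum_eq (show (2 : ℝ) ≠ 1 by norm_num) m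
    rw [this]
    norm_num
  rw [h2, ← Finset.sum_filter]
  refine Finset.sum_le_sum_of_subset_of_nonneg ?_ fun i _ _ => by positivity
  intro i hi
  rw [mem_filter] at hi
  exact mem_range.2 hi.2

theorem mt3_abs : G_ABS := by
  intro s E w g hg hw h
  have h1 : ∀ l ∈ Ico 1 s, w (l + 1) * E * 2 ^ (s - l) ≤
      4 * ((s - l : ℕ) : ℝ) * w (l + 1) * 2 ^ (s - l) +
        32 * E * (if s - l < (E + 3) / 4 then (2 : ℝ) ^ (s - l) else 0) := by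
    intro l hl
    obtain ⟨hl1, hl2⟩ := mem_Ico.1 hl
    obtain ⟨w0, w1⟩ := hw (l + 1) (by omega) (by omega)
    have p : (0 : ℝ) < 2 ^ (s - l) := by positivity
    split_ifs with hc
    · have a1 : w (l + 1) * E ≤ 32 * E := by gcongr
      have a2 : 0 ≤ 4 * ((s - l : ℕ) : ℝ) * w (l + 1) := by positivity
      have a3 := mul_nonneg a2 p.le
      have a4 := mul_le_mul_of_nonneg_right a1 p.le
      linarith
    · have a1 : E ≤ 4 * (s - l) := by omega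
      have a2 : (E : ℝ) ≤ 4 * ((s - l : ℕ) : ℝ) := by exact_mod_cast a1
      have a3 : w (l + 1) * E ≤ 4 * ((s - l : ℕ) : ℝ) * w (l + 1) := by
        rw [mul_comm]
        gcongr
      have a4 := mul_le_mul_of_nonneg_right a3 p.le
      linarith
  have h2 := Finset.sum_le_sum h1
  rw [Finset.sum_add_distrib, ← Finset.mul_sum] at h2
  have h3 : 32 * (E : ℝ) * ∑ l ∈ Ico 1 s,
      (if s - l < (E + 3) / 4 then (2 : ℝ) ^ (s - l) else 0) ≤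
      32 * E * (2 ^ ((E + 3) / 4) - 1) := by
    have := geo s ((E + 3) / 4)
    gcongr
  have h4 := num E g hg h
  have h5 : (2 : ℝ) ^ 43 = 2 ^ 38 * 32 := by norm_num
  rw [h5] at h4
  have h6 : ∑ l ∈ Ico 1 s, w (l + 1) * E * 2 ^ (s - l) + 32 * E ≤
      ∑ l ∈ Ico 1 s, 4 * ((s - l : ℕ) : ℝ) * w (l + 1) * 2 ^ (s - l) +
        32 * E * 2 ^ ((E + 3) / 4) := by linarith
  have h7 := mul_le_mul_of_nonneg_left h6 (show (0 : ℝ) ≤ 2 ^ 38 by positivity)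
  rw [mul_add] at h7
  linarith

end Pool.Agent.Helper62.MT3
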